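import Pool.Agent.N269.MX.TMain

set_option autoImplicit false

/-!
# MP_b1773a: Kakeya sets whose lines are given by a labelled tree with few subtrees

A Kakeya set in `ℝ^n`, `n = d + 1`, contains, for every slope `v` in the unit cube `[0,1)^d`, a
segment of some line `{(t, a(v) + t v) : t ∈ ℝ}`.  Suppose that the selection `v ↦ a(v)` is given by
a labelling of the nodes of the infinite tree of the finite words `v_0 v_1 ... v_n` of base `b` digit
vectors by finitely many rational vectors:

  `a(v) = ∑ b^(-(n+1)) lab (v_0 v_1 ... v_n)`,  `v_0, v_1, ...` the digits of `v`.

(These are the sticky selections: `a` is Lipschitz for the `b`-adic distance, and every such `a` is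
given by a labelling with finitely many integer vectors.)  Let `N(m)` be the number of different
labelled subtrees of height `m`, and let `κ = liminf log N(m) / (m log b)`.  We prove

  `dim_H K ≥ n (1 - κ)`;

in particular `dim_H K = n` when `N(m)` grows subexponentially along a sequence of heights `m`.  For
example `N(m)` is bounded if `a` is computed by a finite automaton which reads the digits of `v` and
writes digit vectors, and `N(m)` is bounded by a polynomial if the automaton has in addition finitely
many counters.  It suffices that the condition holds for the slopes `v` in a set `V` of positive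
outer measure; the set `K` is arbitrary, the segments are arbitrary nondegenerate segments of the
lines, and everything may be moved by an affine bijection of `ℝ^n`.

Proof.  (1) The maximal estimate over `(ℤ/b^m)^n` with a loss which is polynomial in `m`: weighted
rank method over `ℤ[ζ]` for parts of lines, averages over shears, dyadic decomposition, products of
rings.  (2) By duality the sum of the powers `q = n/(n-1)` of the multiplicities of the points
(residues) at the heights `t₀ ∈ ℤ/b^m`, for the words of length `m`, is nearly optimal in the mean
over `t₀`, for each type of subtrees of height `m`; hence there is one `t₀` for which it is nearly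
optimal for all types together, up to the factor `N(m)^q`.  (3) At a rational height `p/s ≡ t₀` the
power sums for long words are at most the products of those of the blocks: the type of the last block
and the block itself determine the residue.  (4) The words of length `m L` have nearly optimal power
sums of the multiplicities of the cells of side one over a whole interval of heights around `p/s`;
iterating from the first block on, the same holds at all scales.  (5) Integration over the heights
and duality give the Kakeya maximal estimate with the loss `r^(-κ-ε)` over a small interval of heights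
which does not depend on the scale.  (6) From the maximal estimate to the Hausdorff dimension.
-/

open Set MeasureTheory
open scoped ENNReal

namespace Pool.Agent.N269.Shelf.KakeyaLabelledTrees

/-- Euclidean space `ℝ^n`. -/
abbrev E (n : ℕ) : Type := EuclideanSpace ℝ (Fin n)

/-- The point of `ℝ^(d+1)` with first coordinate (height) `t` and remaining coordinates `y`. -/
noncomputable def pt {d : ℕ} (t : ℝ) (y : Fin d → ℝ) : E (d + 1) := WithLp.toLp 2 (Fin.cons t y)

/-- The finite words of vectors of `d` digits in base `b`: the nodes of the tree. -/
abbrev Word (d b : ℕ) : Type := List (Fin d → Fin b)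

/-- The word of the first `n` base `b` digit vectors of `v ∈ [0,1)^d`. -/
noncomputable def word {d : ℕ} (b : ℕ) [NeZero b] (v : Fin d → ℝ) (n : ℕ) : Word d b :=
  List.ofFn fun (j : Fin n) (i : Fin d) => Real.digits (v i) b j

/-- The function given by a labelled tree: `a(v) = ∑ b^(-(n+1)) lab (v_0 v_1 ... v_n)`. -/
noncomputable def fn {d b : ℕ} [NeZero b] (lab : Word d b → Fin d → ℚ) (v : Fin d → ℝ)
    (i : Fin d) : ℝ :=
  ∑' n, (lab (word b v (n + 1)) i : ℝ) / (b : ℝ) ^ (n + 1)

/-- The labelled subtree of height `m` below the node `u`. -/
def subtree {d b : ℕ} (lab : Word d b → Fin d → ℚ) (m : ℕ) (u : Word d b) :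
    {w : Word d b // w.length ≤ m} → Fin d → ℚ := fun w => lab (u ++ w)

/-- The number of different labelled subtrees of height `m`. -/
noncomputable def complexity {d b : ℕ} (lab : Word d b → Fin d → ℚ) (m : ℕ) : ℕ :=
  (range (subtree lab m)).ncard

/-- **Kakeya sets given by labelled trees.**  Let `lab` be a labelling of the tree with finitely many
labels (rational vectors) such that for every `κ' > κ` there are arbitrarily large `m` with at most
`b^(κ' m)` different subtrees of height `m`.  Let `K ⊆ ℝ^(d+1)` be arbitrary, let `F` be an affine
bijection of `ℝ^(d+1)`, let `V ⊆ [0,1)^d` have positive outer measure, and suppose that for every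
`v ∈ V` the set `F(K)` contains a nondegenerate segment of the line `{(t, a(v) + t v) : t ∈ ℝ}`,
`a` the function given by `lab`.  Then `dim_H K ≥ (d + 1) (1 - κ)`. -/
theorem result (d b : ℕ) [NeZero b] (hd : 1 ≤ d) (hb : 2 ≤ b) (lab : Word d b → Fin d → ℚ)
    (hfin : (range lab).Finite) (κ : ℝ) (hκ : 0 ≤ κ)
    (hcomp : ∀ κ' : ℝ, κ < κ' →
      ∃ᶠ m : ℕ in Filter.atTop, (complexity lab m : ℝ) ≤ (b : ℝ) ^ (κ' * m))
    (K : Set (E (d + 1))) (F : E (d + 1) ≃ᵃ[ℝ] E (d + 1)) (V : Set (Fin d → ℝ))
    (hV : ∀ v ∈ V, ∀ i, v i ∈ Ico (0 : ℝ) 1) (hV0 : volume V ≠ 0)
    (h : ∀ v ∈ V, ∃ t₁ t₂ : ℝ, t₁ < t₂ ∧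
      ∀ t ∈ Icc t₁ t₂, pt t (fun i => fn lab v i + t * v i) ∈ F '' K) :
    ENNReal.ofReal (((d : ℝ) + 1) * (1 - κ)) ≤ dimH K := by
  have hF : F '' K = (fun x => x + F 0) '' (F.linear.toContinuousLinearEquiv '' K) := by
    rw [image_image]
    refine image_congr fun x _ => ?_
    have h1 := F.map_vadd 0 x
    simp only [vadd_eq_add, add_zero] at h1
    exact h1
  have hiso : Isometry (fun x : E (d + 1) => x + F 0) := isometry_add_right _
  have hdim : dimH (F '' K) = dimH K := by
    rw [hF, hiso.dimH_image, ContinuousLinearEquiv.dimH_image]
  rw [← hdim]
  exact Pool.Agent.N269.MX.tmain hb hd lab hfin hκ hcomp (F '' K) V hV hV0 h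

end Pool.Agent.N269.Shelf.KakeyaLabelledTrees
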